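import Pool.Agent.H6.KX.Kern

/-!
# The smoothed sums of `a n / n`
-/

set_option autoImplicit false

open Complex MeasureTheory Filter Topology Set
open H353 H353.D

namespace Pool.Agent.H6.KX

noncomputable section

variable {L : ℝ} {g : ℝ → ℝ}

theorem SG_fin (hg : ST L g) {a : ℕ → ℝ} (ha0 : a 0 = 0) {t T : ℝ} (ht : t ≤ T) :
    SG a g t = ∑ n ∈ Finset.Icc 1 ⌊Real.exp T⌋₊, a n * g (t - Real.log n) := by
  unfold SG
  refine tsum_eq_sum fun n hn => ?_
  by_cases h0 : n = 0
  · rw [h0, ha0, zero_mul]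
  · have hn1 : 1 ≤ n := Nat.one_le_iff_ne_zero.2 h0
    have hn2 : ⌊Real.exp T⌋₊ < n := by
      by_contra h'
      exact hn (Finset.mem_Icc.2 ⟨hn1, not_lt.1 h'⟩)
    have hn3 : Real.exp T < n := (Nat.floor_lt (Real.exp_pos T).le).1 hn2
    have hn4 : T < Real.log n := by
      rw [Real.lt_log_iff_exp_lt (by exact_mod_cast hn1)]
      exact hn3
    rw [hg.zero _ (by linarith), mul_zero]

theorem G_eq (hg : ST L g) {a : ℕ → ℝ} (ha0 : a 0 = 0) {T : ℝ} (hT : 0 ≤ T) :
    ∑ n ∈ Finset.Icc 1 ⌊Real.exp T⌋₊, a n / n * Kk g (T - Real.log n) =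
      Real.exp (-T) * SG a g T + ∫ t in (0:ℝ)..T, Real.exp (-t) * SG a g t := by
  have e1 : ∀ n ∈ Finset.Icc 1 ⌊Real.exp T⌋₊, a n / n * Kk g (T - Real.log n) =
      Real.exp (-T) * (a n * g (T - Real.log n)) +
        ∫ t in (0:ℝ)..T, a n * (Real.exp (-t) * g (t - Real.log n)) := by
    intro n hn
    rw [Finset.mem_Icc] at hn
    rw [intervalIntegral.integral_const_mul]
    have h := Kk_shift hg T n hn.1
    have e : a n / n * Kk g (T - Real.log n) = a n * ((1 / (n : ℝ)) * Kk g (T - Real.log n)) := by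
      ring
    rw [e, h]
    ring
  rw [Finset.sum_congr rfl e1, Finset.sum_add_distrib, ← Finset.mul_sum,
    ← SG_fin hg ha0 (le_refl T), ← intervalIntegral.integral_finsetSum]
  · congr 1
    refine intervalIntegral.integral_congr fun t ht => ?_
    rw [uIcc_of_le hT] at ht
    rw [SG_fin hg ha0 ht.2, Finset.mul_sum]
    exact Finset.sum_congr rfl fun n _ => by ring
  · intro n _
    have := hg.smooth.continuous
    exact (by fun_prop : Continuous _).intervalIntegrable _ _

theorem G_bound {Φ R : ℂ → ℂ} {a : ℕ → ℝ} (hΦ : LT Φ) (ha : AF Φ a R) (hg : ST L g) {θ C : ℝ}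
    (h3 : θ < 1) (hb : ∀ t, |SG a g t| ≤ C * Real.exp (θ * t)) (D1 : ℝ)
    (hD : Φ 1 * (D1 : ℂ) = R 1) :
    ∃ C' : ℝ, 0 ≤ C' ∧ ∀ T : ℝ, 0 ≤ T →
      |∑ n ∈ Finset.Icc 1 ⌊Real.exp T⌋₊, a n / n * Kk g (T - Real.log n) - D1 * ck g| ≤
        C' * Real.exp ((θ - 1) * T) := by
  have hC : 0 ≤ C := by
    have := (abs_nonneg _).trans (hb 0)
    simpa using this
  have hI : ∫ t : ℝ, SG a g t * Real.exp (-t) = D1 * ck g := by
    have h1 := total hΦ ha hg h3 hb
    rw [← hD, mul_assoc] at h1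
    have h2 := mul_left_cancel₀ (hΦ.ne 1 (by simp)) h1
    exact_mod_cast h2
  have hcont := SG_cont (a := a) hg ha.zero
  have hneg : θ - 1 < 0 := by linarith
  have hle : ∀ t : ℝ, |SG a g t * Real.exp (-t)| ≤ C * Real.exp ((θ - 1) * t) := by
    intro t
    rw [abs_mul, abs_of_pos (Real.exp_pos _)]
    calc |SG a g t| * Real.exp (-t) ≤ (C * Real.exp (θ * t)) * Real.exp (-t) :=
          mul_le_mul_of_nonneg_right (hb t) (Real.exp_pos _).le
      _ = _ := by rw [mul_assoc, ← Real.exp_add]; ring_nf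
  have hdom : ∀ c : ℝ, IntegrableOn (fun t : ℝ => C * Real.exp ((θ - 1) * t)) (Ioi c) := fun c =>
    (integrableOn_exp_mul_Ioi hneg c).const_mul C
  have hint : ∀ c : ℝ, IntegrableOn (fun t : ℝ => SG a g t * Real.exp (-t)) (Ioi c) := fun c => by
    refine (hdom c).mono' ?_ (ae_of_all _ fun t => ?_)
    · exact (by fun_prop : Continuous (fun t : ℝ => SG a g t * Real.exp (-t))).aestronglyMeasurable
    · rw [Real.norm_eq_abs]
      exact hle t
  refine ⟨C + C / (1 - θ), by have : 0 < 1 - θ := by linarith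
                              positivity, fun T hT => ?_⟩
  have e1 : ∫ t : ℝ, SG a g t * Real.exp (-t) = ∫ t in Ioi (0:ℝ), SG a g t * Real.exp (-t) := by
    rw [← integral_indicator measurableSet_Ioi]
    refine integral_congr_ae (ae_of_all _ fun w => ?_)
    simp only
    by_cases hw : 0 < w
    · rw [indicator_of_mem (show w ∈ Ioi 0 from hw)]
    · rw [indicator_of_notMem (show w ∉ Ioi 0 from hw), SG_neg hg ha.zero w (not_lt.1 hw), zero_mul]
  have e2 := intervalIntegral.integral_interval_add_Ioi (a := (0:ℝ)) (b := T)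
    (f := fun t => SG a g t * Real.exp (-t)) (hint 0) (hint T)
  have e3 : ∫ t in (0:ℝ)..T, Real.exp (-t) * SG a g t = ∫ t in (0:ℝ)..T, SG a g t * Real.exp (-t) :=
    intervalIntegral.integral_congr fun t _ => mul_comm _ _
  have e4 : |∫ t in Ioi T, SG a g t * Real.exp (-t)| ≤ C / (1 - θ) * Real.exp ((θ - 1) * T) := by
    rw [← Real.norm_eq_abs]
    refine (norm_integral_le_of_norm_le (hdom T) (ae_of_all _ fun t => ?_)).trans (le_of_eq ?_)
    · rw [Real.norm_eq_abs]
      exact hle t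
    · rw [integral_const_mul, integral_exp_mul_Ioi hneg]
      have : 1 - θ ≠ 0 := by linarith
      have h5 : θ - 1 ≠ 0 := by linarith
      field_simp
      ring
  rw [G_eq hg ha.zero hT, ← hI, e1, ← e2, e3]
  have e5 : Real.exp (-T) * SG a g T + (∫ t in (0:ℝ)..T, SG a g t * Real.exp (-t)) -
      ((∫ t in (0:ℝ)..T, SG a g t * Real.exp (-t)) + ∫ t in Ioi T, SG a g t * Real.exp (-t)) =
      SG a g T * Real.exp (-T) - ∫ t in Ioi T, SG a g t * Real.exp (-t) := by ring
  rw [e5]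
  refine (abs_sub _ _).trans ?_
  have := hle T
  linarith

end

end Pool.Agent.H6.KX
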