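import Pool.Agent.H6.KX.Signed

/-!
# The Möbius function and the von Mangoldt function
-/

set_option autoImplicit false

open Complex MeasureTheory Filter Topology Set
open H353 H353.D

namespace Pool.Agent.H6.KX

noncomputable section

theorem af_zeta_lam : AF FF aL (fun s => -(deriv FF s) - FF s * dslope FF 1 s) where
  zero := by simp [aL]
  sum := aL_summable
  rdiff := by
    have h1 : Differentiable ℂ FF := ZU.J_g2b.FF_diff
    have h2 : Differentiable ℂ (deriv FF) := fun s => (h1.analyticAt s).deriv.differentiableAt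
    have h3 := FF_ds_diff
    fun_prop
  rbound := by
    have h5 : PB (fun s => (-1 : ℂ) * deriv FF s + (-1 : ℂ) * (FF s * dslope FF 1 s)) :=
      ((PB.const (-1)).mul LF_zeta.pb').add ((PB.const (-1)).mul (LF_zeta.pb.mul FF_ds_pb))
    obtain ⟨C, k, hC, hk⟩ := h5
    refine ⟨C, k, hC, fun s h1 h2 => ?_⟩
    have e : -(deriv FF s) - FF s * dslope FF 1 s =
        (-1 : ℂ) * deriv FF s + (-1 : ℂ) * (FF s * dslope FF 1 s) := by ring
    rw [e]
    exact hk s h1 h2
  series := by
    intro s hs
    have hs1 : s ≠ 1 := by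
      rintro rfl
      simp at hs
    have h0 : s - 1 ≠ 0 := sub_ne_zero.2 hs1
    have hz : riemannZeta s ≠ 0 := riemannZeta_ne_zero_of_one_le_re hs.le
    have e1 : FF s = (s - 1) * riemannZeta s := ZU.J_g2b.FF_ne hs1
    have e2 : deriv FF s = riemannZeta s + (s - 1) * deriv riemannZeta s := by
      have e3 : FF =ᶠ[𝓝 s] fun s => (s - 1) * riemannZeta s := by
        filter_upwards [isOpen_ne.mem_nhds hs1] with z hz
        exact ZU.J_g2b.FF_ne hz
      rw [e3.deriv_eq]
      have d1 : HasDerivAt (fun s : ℂ => s - 1) 1 s := (hasDerivAt_id s).sub_const 1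
      have d2 := d1.mul (differentiableAt_riemannZeta hs1).hasDerivAt
      have d3 := d2.deriv
      rw [show (fun s : ℂ => (s - 1) * riemannZeta s) = (fun s : ℂ => s - 1) * riemannZeta from rfl, d3]
      ring
    have e8 : dslope FF 1 s = riemannZeta s - 1 / (s - 1) := by
      rw [dslope_of_ne _ hs1, slope_def_field, show FF 1 = 1 from ZU.J_g2b.FF_one, e1]
      field_simp
    rw [aL_series s hs, e1, e2, e8]
    field_simp
    ring

theorem deriv_FF_one : deriv FF 1 = (Real.eulerMascheroniConstant : ℂ) := by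
  have h1 : Tendsto (dslope FF 1) (𝓝[≠] 1) (𝓝 (deriv FF 1)) := by
    have h2 : ContinuousAt (dslope FF 1) 1 := FF_ds_diff.continuous.continuousAt
    have h3 := h2.tendsto
    rw [dslope_same] at h3
    exact h3.mono_left nhdsWithin_le_nhds
  have h4 : Tendsto (dslope FF 1) (𝓝[≠] 1) (𝓝 (Real.eulerMascheroniConstant : ℂ)) := by
    refine tendsto_riemannZeta_sub_one_div.congr' ?_
    filter_upwards [self_mem_nhdsWithin] with s hs
    have hs1 : s ≠ 1 := hs
    rw [dslope_of_ne _ hs1, slope_def_field, show FF 1 = 1 from ZU.J_g2b.FF_one,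
      show FF s = (s - 1) * riemannZeta s from ZU.J_g2b.FF_ne hs1]
    have h0 : s - 1 ≠ 0 := sub_ne_zero.2 hs1
    field_simp
  exact tendsto_nhds_unique h1 h4

theorem D_mu : FF 1 * ((0 : ℝ) : ℂ) = (fun s : ℂ => s - 1) 1 := by simp

theorem D_lam : FF 1 * ((-2 * Real.eulerMascheroniConstant : ℝ) : ℂ) =
    (fun s => -(deriv FF s) - FF s * dslope FF 1 s) 1 := by
  simp only [dslope_same]
  rw [show FF 1 = 1 from ZU.J_g2b.FF_one, deriv_FF_one]
  push_cast
  ring

end

end Pool.Agent.H6.KX
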