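import Pool.Graph.R_pool_sql_team_seeded_f0cf7b00.H353R5.B8
import Pool.Graph.R_pool_sql_team_seeded_f0cf7b00.H353R5.C9

/-!
# From smoothed sums of `a n` to smoothed sums of `a n / n`
-/

set_option autoImplicit false

open Complex MeasureTheory Filter Topology Set
open H353 H353.D

namespace Pool.Agent.H6.KX

noncomputable section

variable {L : ℝ} {g : ℝ → ℝ}

/-- the kernel for `a n / n` -/
def Kk (g : ℝ → ℝ) (v : ℝ) : ℝ := g v * Real.exp (-v) + ∫ w in (0:ℝ)..v, g w * Real.exp (-w)

/-- its value to the right -/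
def ck (g : ℝ → ℝ) : ℝ := ∫ w : ℝ, g w * Real.exp (-w)

theorem g_int (hg : ST L g) : Integrable (fun w : ℝ => g w * Real.exp (-w)) := by
  have h := (hg.exp_int 1 (by simp)).re
  refine h.congr (ae_of_all _ fun w => ?_)
  have e : (g w : ℂ) * cexp (-1 * (w : ℂ)) = ((g w * Real.exp (-w) : ℝ) : ℂ) := by
    push_cast
    rw [neg_one_mul]
  simp only [e]
  rfl

theorem ck_DD (hg : ST L g) : (ck g : ℂ) = DD (deriv g) 1 := by
  have h := hg.laplace 1 (by simp)
  rw [div_one] at h
  rw [← h]
  unfold ck
  rw [← integral_complex_ofReal]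
  refine integral_congr_ae (ae_of_all _ fun w => ?_)
  simp only
  push_cast
  rw [neg_one_mul]

theorem Kk_zero (hg : ST L g) {v : ℝ} (hv : v ≤ 0) : Kk g v = 0 := by
  unfold Kk
  rw [hg.zero v hv, zero_mul, zero_add, intervalIntegral.integral_symm]
  rw [intervalIntegral.integral_congr (g := fun _ => (0:ℝ))]
  · simp
  · intro w hw
    rw [uIcc_of_le hv] at hw
    simp only
    rw [hg.zero w hw.2, zero_mul]

theorem Kk_const (hg : ST L g) {v : ℝ} (hv : L ≤ v) (hv0 : 0 ≤ v) : Kk g v = ck g := by
  have hi := g_int hg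
  have e1 : ck g = ∫ w in Ioi (0:ℝ), g w * Real.exp (-w) := by
    unfold ck
    rw [← integral_indicator measurableSet_Ioi]
    refine integral_congr_ae (ae_of_all _ fun w => ?_)
    simp only
    by_cases hw : 0 < w
    · rw [indicator_of_mem (show w ∈ Ioi 0 from hw)]
    · rw [indicator_of_notMem (show w ∉ Ioi 0 from hw), hg.zero w (not_lt.1 hw), zero_mul]
  have e2 := intervalIntegral.integral_interval_add_Ioi (a := (0:ℝ)) (b := v)
    (f := fun w => g w * Real.exp (-w)) hi.integrableOn hi.integrableOn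
  have e3 : ∫ w in Ioi v, g w * Real.exp (-w) = Real.exp (-v) := by
    rw [← integral_exp_neg_Ioi v]
    refine setIntegral_congr_fun measurableSet_Ioi fun w hw => ?_
    show g w * Real.exp (-w) = Real.exp (-w)
    rw [hg.one w (hv.trans (le_of_lt hw)), one_mul]
  unfold Kk
  rw [e1, ← e2, e3, hg.one v hv]
  ring

theorem Kk_deriv (hg : ST L g) (v : ℝ) : HasDerivAt (Kk g) (deriv g v * Real.exp (-v)) v := by
  have h1 : HasDerivAt g (deriv g v) v := ((contDiff_infty_iff_deriv.1 hg.smooth).1 v).hasDerivAt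
  have h2 : HasDerivAt (fun v : ℝ => Real.exp (-v)) (-Real.exp (-v)) v := by
    have := (hasDerivAt_neg v).exp
    simpa using this
  have hc : Continuous (fun w : ℝ => g w * Real.exp (-w)) := by
    have := hg.smooth.continuous
    fun_prop
  have h3 : HasDerivAt (fun v => ∫ w in (0:ℝ)..v, g w * Real.exp (-w)) (g v * Real.exp (-v)) v :=
    intervalIntegral.integral_hasDerivAt_right (hc.intervalIntegrable _ _)
      (hc.stronglyMeasurableAtFilter _ _) hc.continuousAt
  have h4 := (h1.mul h2).add h3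
  refine h4.congr_deriv ?_
  ring

theorem Kk_cont (hg : ST L g) : Continuous (Kk g) :=
  continuous_iff_continuousAt.2 fun v => (Kk_deriv hg v).continuousAt

/-- shift -/
theorem Kk_shift (hg : ST L g) (T : ℝ) (n : ℕ) (hn : 1 ≤ n) :
    (1 / (n : ℝ)) * Kk g (T - Real.log n) =
      Real.exp (-T) * g (T - Real.log n) + ∫ t in (0:ℝ)..T, Real.exp (-t) * g (t - Real.log n) := by
  have hn0 : (0:ℝ) < n := by exact_mod_cast hn
  have hl : 0 ≤ Real.log n := Real.log_natCast_nonneg n
  have e1 : ∀ t : ℝ, Real.exp (-t) * g (t - Real.log n) =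
      (1 / (n : ℝ)) * (g (t - Real.log n) * Real.exp (-(t - Real.log n))) := by
    intro t
    have : Real.exp (-(t - Real.log n)) = Real.exp (-t) * n := by
      rw [show -(t - Real.log n) = -t + Real.log n by ring, Real.exp_add, Real.exp_log hn0]
    rw [this]
    field_simp
  have e2 : ∫ t in (0:ℝ)..T, Real.exp (-t) * g (t - Real.log n) =
      (1 / (n : ℝ)) * ∫ w in (0:ℝ)..(T - Real.log n), g w * Real.exp (-w) := by
    simp_rw [e1]
    rw [intervalIntegral.integral_const_mul]
    congr 1
    rw [intervalIntegral.integral_comp_sub_right (fun w => g w * Real.exp (-w)) (Real.log n)]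
    have hc : Continuous (fun w : ℝ => g w * Real.exp (-w)) := by
      have := hg.smooth.continuous
      fun_prop
    rw [← intervalIntegral.integral_add_adjacent_intervals (b := (0:ℝ))
      (hc.intervalIntegrable _ _) (hc.intervalIntegrable _ _)]
    have e3 : ∫ w in (0 - Real.log n)..(0:ℝ), g w * Real.exp (-w) = 0 := by
      rw [intervalIntegral.integral_congr (g := fun _ => (0:ℝ))]
      · simp
      · intro w hw
        rw [uIcc_of_le (by linarith)] at hw
        simp only
        rw [hg.zero w hw.2, zero_mul]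
    rw [e3, zero_add]
  rw [e2]
  unfold Kk
  rw [e1 T]
  ring

/-- the total mass -/
theorem total {Φ R : ℂ → ℂ} {a : ℕ → ℝ} (hΦ : LT Φ) (ha : AF Φ a R) (hg : ST L g) {θ C : ℝ}
    (h3 : θ < 1) (hb : ∀ t, |SG a g t| ≤ C * Real.exp (θ * t)) :
    Φ 1 * ((∫ t : ℝ, SG a g t * Real.exp (-t) : ℝ) : ℂ) = R 1 * (ck g : ℂ) := by
  set u : ℂ → ℂ := fun s => s * ∫ t : ℝ, (SG a g t : ℂ) * cexp (-s * t) with hu
  have hud : ∀ s : ℂ, θ < s.re → DifferentiableAt ℂ u s := by
    intro s hs
    have d1 := SG_diff hg ha.zero C θ hb s hs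
    exact differentiableAt_id.mul d1
  have key : ∀ s : ℂ, θ < s.re → Φ s * u s = R s * DD (deriv g) s := by
    refine half_id θ h3 (fun s => Φ s * u s) (fun s => R s * DD (deriv g) s) ?_ ?_ ?_
    · intro s hs
      exact (hΦ.diff s).mul (hud s hs)
    · intro s _
      exact (ha.rdiff s).mul (hg.tf.diff s)
    · intro s hs
      have hs0 : s ≠ 0 := by
        rintro rfl
        norm_num at hs
      simp only [hu]
      rw [SG_laplace hg ha.zero ha.sum s hs.le, hg.laplace s (by linarith), ← ha.series s (by linarith)]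
      field_simp
  have h4 := key 1 (by simpa using h3)
  rw [ck_DD hg, ← h4]
  congr 1
  simp only [hu]
  rw [one_mul, ← integral_complex_ofReal]
  refine integral_congr_ae (ae_of_all _ fun t => ?_)
  simp only
  push_cast
  rw [neg_one_mul]

end

end Pool.Agent.H6.KX
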