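import Pool.Agent.H6.KX.Bound

/-!
# The partial sums of `a n / n` from the partial sums of `a n` in one window
-/

set_option autoImplicit false

open Complex MeasureTheory Filter Topology Set
open H353 H353.D

namespace Pool.Agent.H6.KX

noncomputable section

variable {L : ℝ} {g : ℝ → ℝ}

theorem sum_zero (c : ℕ → ℝ) (hc0 : c 0 = 0) (N : ℕ) :
    ∑ k ∈ Finset.Icc 0 N, c k = ∑ k ∈ Finset.Icc 1 N, c k := by
  symm
  refine Finset.sum_subset (Finset.Icc_subset_Icc_left (by omega)) fun k hk hk' => ?_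
  rw [Finset.mem_Icc] at hk hk'
  have : k = 0 := by omega
  rw [this, hc0]

theorem abel_bound (c : ℕ → ℝ) (hc0 : c 0 = 0) {l r E A F F' : ℝ} (hl : 0 < l) (hlr : l ≤ r)
    (hr : r ≤ A * l) (hE : ∀ y, l ≤ y → y ≤ r → |∑ n ∈ Finset.Icc 1 ⌊y⌋₊, c n| ≤ E * y)
    (f f' : ℝ → ℝ) (hd : ∀ t ∈ Icc l r, HasDerivAt f (f' t) t) (hc : ContinuousOn f' (Icc l r))
    (hf : ∀ t ∈ Icc l r, |f t| ≤ F / t) (hf' : ∀ t ∈ Icc l r, |f' t| ≤ F' / t ^ 2) (hF' : 0 ≤ F') :
    |∑ n ∈ Finset.Ioc ⌊l⌋₊ ⌊r⌋₊, f n * c n| ≤ (2 * F + F' * (A - 1)) * E := by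
  have hr0 : 0 < r := by linarith
  have hE0 : 0 ≤ E := by
    have := (abs_nonneg _).trans (hE l le_rfl hlr)
    exact nonneg_of_mul_nonneg_left this hl
  have hint : IntegrableOn (deriv f) (Icc l r) := by
    refine (hc.integrableOn_Icc).congr_fun (fun t ht => ?_) measurableSet_Icc
    exact (hd t ht).deriv.symm
  rw [sum_mul_eq_sub_sub_integral_mul c hl.le hlr (fun t ht => (hd t ht).differentiableAt) hint]
  have hmul : ∀ t ∈ Icc l r, |f t * ∑ k ∈ Finset.Icc 0 ⌊t⌋₊, c k| ≤ F * E := by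
    intro t ht
    have ht0 : 0 < t := lt_of_lt_of_le hl ht.1
    rw [abs_mul, sum_zero c hc0]
    calc |f t| * |∑ k ∈ Finset.Icc 1 ⌊t⌋₊, c k| ≤ (F / t) * (E * t) :=
          mul_le_mul (hf t ht) (hE t ht.1 ht.2) (abs_nonneg _) ((abs_nonneg _).trans (hf t ht))
      _ = F * E := by field_simp
  have hI : |∫ t in Set.Ioc l r, deriv f t * ∑ k ∈ Finset.Icc 0 ⌊t⌋₊, c k| ≤ F' * E * (A - 1) := by
    rw [← Real.norm_eq_abs]
    refine (norm_setIntegral_le_of_norm_le_const (C := F' * E / l) (by simp) (fun t ht => ?_)).trans ?_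
    · have ht0 : 0 < t := hl.trans ht.1
      have ht' : t ∈ Icc l r := ⟨ht.1.le, ht.2⟩
      rw [Real.norm_eq_abs, abs_mul, sum_zero c hc0, (hd t ht').deriv]
      calc |f' t| * |∑ k ∈ Finset.Icc 1 ⌊t⌋₊, c k| ≤ (F' / t ^ 2) * (E * t) :=
            mul_le_mul (hf' t ht') (hE t ht'.1 ht'.2) (abs_nonneg _) (by positivity)
        _ = F' * E / t := by field_simp
        _ ≤ F' * E / l := div_le_div_of_nonneg_left (by positivity) hl ht'.1
    · rw [Measure.real, Real.volume_Ioc, ENNReal.toReal_ofReal (by linarith)]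
      have : r - l ≤ (A - 1) * l := by linarith
      calc F' * E / l * (r - l) ≤ F' * E / l * ((A - 1) * l) :=
            mul_le_mul_of_nonneg_left this (by positivity)
        _ = _ := by field_simp
  have h1 := hmul r ⟨hlr, le_rfl⟩
  have h2 := hmul l ⟨le_rfl, hlr⟩
  refine (abs_sub _ _).trans ?_
  refine (add_le_add ((abs_sub _ _).trans (add_le_add h1 h2)) hI).trans (le_of_eq ?_)
  ring

theorem split_sum (b : ℕ → ℝ) {m N : ℕ} (h : m ≤ N) :
    ∑ n ∈ Finset.Icc 1 N, b n = ∑ n ∈ Finset.Icc 1 m, b n + ∑ n ∈ Finset.Ioc m N, b n := by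
  rw [← Finset.sum_union]
  · congr 1
    ext n
    simp only [Finset.mem_Icc, Finset.mem_union, Finset.mem_Ioc]
    omega
  · rw [Finset.disjoint_left]
    intro n h1 h2
    rw [Finset.mem_Icc] at h1
    rw [Finset.mem_Ioc] at h2
    omega

/-- **The local bound.** -/
theorem local_main {Φ R : ℂ → ℂ} {a : ℕ → ℝ} (hΦ : LT Φ) (ha : AF Φ a R) (hg : ST L g)
    (hL : 0 < L) {θ C : ℝ} (h3 : θ < 1) (hb : ∀ t, |SG a g t| ≤ C * Real.exp (θ * t)) (D1 : ℝ)
    (hD : Φ 1 * (D1 : ℂ) = R 1) (hck : ck g ≠ 0) :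
    ∃ C' : ℝ, 0 ≤ C' ∧ ∀ X E x : ℝ, Real.exp L ≤ X →
      (∀ y, X / Real.exp L ≤ y → y ≤ X → |∑ n ∈ Finset.Icc 1 ⌊y⌋₊, a n| ≤ E * y) →
      X / Real.exp L ≤ x → x ≤ X →
        |∑ n ∈ Finset.Icc 1 ⌊x⌋₊, a n / n - D1| ≤ C' * (E + X ^ (θ - 1)) := by
  obtain ⟨C1, hC1, hG⟩ := G_bound hΦ ha hg h3 hb D1 hD
  obtain ⟨B1, hB1⟩ := (isCompact_Icc (a := (0:ℝ)) (b := L)).exists_bound_of_continuousOn
    (Kk_cont hg).continuousOn
  have hc2 : Continuous (fun v => deriv g v * Real.exp (-v)) := by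
    have := (contDiff_infty_iff_deriv.1 hg.smooth).2.continuous
    fun_prop
  obtain ⟨B2, hB2⟩ := (isCompact_Icc (a := (0:ℝ)) (b := L)).exists_bound_of_continuousOn
    hc2.continuousOn
  have hB10 : 0 ≤ B1 := (norm_nonneg _).trans (hB1 0 ⟨le_rfl, hL.le⟩)
  have hB20 : 0 ≤ B2 := (norm_nonneg _).trans (hB2 0 ⟨le_rfl, hL.le⟩)
  set A : ℝ := Real.exp L with hA
  have hA1 : 1 < A := Real.one_lt_exp_iff.2 hL
  have hA0 : 0 < A := by linarith
  have hck0 : 0 < |ck g| := abs_pos.2 hck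
  set M : ℝ := (|ck g| * (2 * 1 + 1 * (A - 1)) + (2 * B1 + (B1 + B2) * (A - 1)) + C1) / |ck g| with hM
  have hM0 : 0 ≤ M := by
    have : 0 ≤ A - 1 := by linarith
    positivity
  refine ⟨M, hM0, fun X E x hX hE hx1 hx2 => ?_⟩
  have hX1 : 1 < X := by linarith
  have hX0 : 0 < X := by linarith
  set l : ℝ := X / A with hl
  have hl1 : 1 ≤ l := (one_le_div hA0).2 hX
  have hl0 : 0 < l := by linarith
  have hXl : X = A * l := by rw [hl]; field_simp
  have hlX : l ≤ X := by rw [hXl]; nlinarith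
  have hE0 : 0 ≤ E := by
    have := (abs_nonneg _).trans (hE l le_rfl hlX)
    exact nonneg_of_mul_nonneg_left this hl0
  set T : ℝ := Real.log X with hT
  have hT0 : 0 ≤ T := Real.log_nonneg hX1.le
  have hexpT : Real.exp T = X := Real.exp_log hX0
  have hloglX : Real.log l = T - L := by
    rw [hl, Real.log_div hX0.ne' hA0.ne', hA, Real.log_exp]
  have hv : ∀ t ∈ Icc l X, T - Real.log t ∈ Icc (0:ℝ) L := by
    intro t ht
    have ht0 : 0 < t := lt_of_lt_of_le hl0 ht.1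
    have h4 := Real.log_le_log hl0 ht.1
    have h5 := Real.log_le_log ht0 ht.2
    rw [hloglX] at h4
    constructor
    · linarith
    · linarith
  -- the smoothed sum
  have hGX := hG T hT0
  rw [hexpT] at hGX
  have hXpow : Real.exp ((θ - 1) * T) = X ^ (θ - 1) := by
    rw [Real.rpow_def_of_pos hX0, ← hT, mul_comm]
  rw [hXpow] at hGX
  set f1 : ℝ → ℝ := fun t => Kk g (T - Real.log t) / t with hf1
  set f1' : ℝ → ℝ := fun t => -(deriv g (T - Real.log t) * Real.exp (-(T - Real.log t)) +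
    Kk g (T - Real.log t)) / t ^ 2 with hf1'
  have e1 : ∑ n ∈ Finset.Icc 1 ⌊X⌋₊, a n / n * Kk g (T - Real.log n) =
      ck g * ∑ n ∈ Finset.Icc 1 ⌊l⌋₊, a n / n + ∑ n ∈ Finset.Ioc ⌊l⌋₊ ⌊X⌋₊, f1 n * a n := by
    rw [split_sum _ (Nat.floor_le_floor hlX), Finset.mul_sum]
    congr 1
    · refine Finset.sum_congr rfl fun n hn => ?_
      rw [Finset.mem_Icc] at hn
      have hn0 : (0:ℝ) < n := by exact_mod_cast hn.1
      have hnl : (n : ℝ) ≤ l := (Nat.le_floor_iff hl0.le).1 hn.2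
      have h4 := Real.log_le_log hn0 hnl
      rw [Kk_const hg (by linarith) (by linarith)]
      ring
    · refine Finset.sum_congr rfl fun n _ => ?_
      simp only [hf1]
      ring
  -- the two sums over the window
  have hS1 : |∑ n ∈ Finset.Ioc ⌊l⌋₊ ⌊X⌋₊, f1 n * a n| ≤ (2 * B1 + (B1 + B2) * (A - 1)) * E := by
    refine abel_bound a ha.zero hl0 hlX hXl.le hE f1 f1' ?_ ?_ ?_ ?_ (by positivity)
    · intro t ht
      have ht0 : 0 < t := lt_of_lt_of_le hl0 ht.1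
      have d1 : HasDerivAt (fun t : ℝ => T - Real.log t) (-t⁻¹) t :=
        (Real.hasDerivAt_log ht0.ne').const_sub T
      have d2 := (Kk_deriv hg (T - Real.log t)).comp t d1
      have d3 := d2.div (hasDerivAt_id t) ht0.ne'
      refine (HasDerivAt.congr_deriv d3 ?_)
      simp only [hf1', id, Function.comp]
      field_simp
      ring
    · have c1 := Kk_cont hg
      have c2 : ContinuousOn (fun t : ℝ => T - Real.log t) (Icc l X) := by
        refine ContinuousOn.sub continuousOn_const (Real.continuousOn_log.mono fun t ht => ?_)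
        have ht0 : 0 < t := lt_of_lt_of_le hl0 ht.1
        exact ht0.ne'
      have c3 : ContinuousOn (fun t : ℝ => deriv g (T - Real.log t) * Real.exp (-(T - Real.log t)))
          (Icc l X) := hc2.comp_continuousOn c2
      have c4 : ContinuousOn (fun t : ℝ => Kk g (T - Real.log t)) (Icc l X) := c1.comp_continuousOn c2
      refine ContinuousOn.div (c3.add c4).neg (by fun_prop) fun t ht => ?_
      have ht0 : 0 < t := lt_of_lt_of_le hl0 ht.1
      positivity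
    · intro t ht
      have ht0 : 0 < t := lt_of_lt_of_le hl0 ht.1
      simp only [hf1]
      rw [abs_div, abs_of_pos ht0]
      refine div_le_div_of_nonneg_right ?_ ht0.le
      have := hB1 _ (hv t ht)
      rwa [Real.norm_eq_abs] at this
    · intro t ht
      have ht0 : 0 < t := lt_of_lt_of_le hl0 ht.1
      simp only [hf1']
      rw [abs_div, abs_neg, abs_of_pos (by positivity : 0 < t ^ 2)]
      refine div_le_div_of_nonneg_right ?_ (by positivity)
      have h5 := hB1 _ (hv t ht)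
      have h6 := hB2 _ (hv t ht)
      rw [Real.norm_eq_abs] at h5 h6
      refine (abs_add_le _ _).trans ?_
      linarith
  have hS2 : |∑ n ∈ Finset.Ioc ⌊l⌋₊ ⌊x⌋₊, (1 / (n : ℝ)) * a n| ≤ (2 * 1 + 1 * (A - 1)) * E := by
    refine abel_bound a ha.zero hl0 hx1 (by linarith) (fun y h1 h2 => hE y h1 (by linarith))
      (fun t : ℝ => 1 / t) (fun t : ℝ => -(t ^ 2)⁻¹) ?_ ?_ ?_ ?_ (by norm_num)
    · intro t ht
      have ht0 : 0 < t := lt_of_lt_of_le hl0 ht.1
      have := hasDerivAt_inv ht0.ne'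
      simpa [one_div] using this
    · intro t ht
      have ht0 : 0 < t := lt_of_lt_of_le hl0 ht.1
      have : t ^ 2 ≠ 0 := by positivity
      exact ((continuousAt_id.pow 2).inv₀ this).neg.continuousWithinAt
    · intro t ht
      have ht0 : 0 < t := lt_of_lt_of_le hl0 ht.1
      rw [abs_of_pos (by positivity)]
    · intro t ht
      have ht0 : 0 < t := lt_of_lt_of_le hl0 ht.1
      rw [abs_neg, abs_of_pos (by positivity), one_div]
  have e2 : ∑ n ∈ Finset.Icc 1 ⌊x⌋₊, a n / n = ∑ n ∈ Finset.Icc 1 ⌊l⌋₊, a n / n +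
      ∑ n ∈ Finset.Ioc ⌊l⌋₊ ⌊x⌋₊, (1 / (n : ℝ)) * a n := by
    rw [split_sum _ (Nat.floor_le_floor hx1)]
    congr 1
    exact Finset.sum_congr rfl fun n _ => by ring
  rw [e1] at hGX
  set S0 := ∑ n ∈ Finset.Icc 1 ⌊l⌋₊, a n / n
  set S1 := ∑ n ∈ Finset.Ioc ⌊l⌋₊ ⌊X⌋₊, f1 n * a n
  set S2 := ∑ n ∈ Finset.Ioc ⌊l⌋₊ ⌊x⌋₊, (1 / (n : ℝ)) * a n
  rw [e2]
  have hXp : 0 < X ^ (θ - 1) := Real.rpow_pos_of_pos hX0 _
  have key : |ck g| * |S0 + S2 - D1| ≤ |ck g| * ((2 * 1 + 1 * (A - 1)) * E) +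
      (2 * B1 + (B1 + B2) * (A - 1)) * E + C1 * X ^ (θ - 1) := by
    rw [← abs_mul]
    have e3 : ck g * (S0 + S2 - D1) = ck g * S2 - S1 + (ck g * S0 + S1 - D1 * ck g) := by ring
    rw [e3]
    refine (abs_add_le _ _).trans (add_le_add ((abs_sub _ _).trans (add_le_add ?_ hS1)) hGX)
    rw [abs_mul]
    exact mul_le_mul_of_nonneg_left hS2 hck0.le
  have e4 : |ck g| * (M * (E + X ^ (θ - 1))) =
      (|ck g| * (2 * 1 + 1 * (A - 1)) + (2 * B1 + (B1 + B2) * (A - 1)) + C1) * (E + X ^ (θ - 1)) := by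
    rw [hM]
    field_simp
  have h7 : 0 ≤ A - 1 := by linarith
  have key2 : |ck g| * |S0 + S2 - D1| ≤ |ck g| * (M * (E + X ^ (θ - 1))) := by
    rw [e4]
    refine key.trans ?_
    have p1 : 0 ≤ |ck g| * (2 * 1 + 1 * (A - 1)) * X ^ (θ - 1) := by positivity
    have p2 : 0 ≤ (2 * B1 + (B1 + B2) * (A - 1)) * X ^ (θ - 1) := by positivity
    have p3 : 0 ≤ C1 * E := by positivity
    nlinarith
  exact le_of_mul_le_mul_left key2 hck0

end

end Pool.Agent.H6.KX
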