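import Pool.Agent.H6.KX.Main

/-!
# Signed steps with nonvanishing transform at `1`
-/

set_option autoImplicit false

open Complex MeasureTheory ProbabilityTheory Filter Topology Set
open H353 H353.D

namespace Pool.Agent.H6.KX

noncomputable section

theorem ck_Av {ι : Type*} [Countable ι] (b h : ι → ℝ) (h0 : ∀ i, 0 ≤ h i) (hs : Summable h)
    {ε : ℝ} {f : ℝ → ℝ} (hf : ST ε f) :
    ck (Av b h f) = (∫ ω, Real.exp (-(XX h ω)) ∂(PP b h)) * ck f := by
  obtain ⟨C, hC1, hC⟩ := hf.bdd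
  have hm := XX_meas h h0 hs
  have hfc := hf.smooth.continuous
  set F : ℝ → (ι → Bool) → ℝ := fun w ω => f (w - XX h ω) * Real.exp (-w) with hF
  have h1 : IntegrableOn (fun t : ℝ => C * Real.exp (-1 * t)) (Ioi 0) :=
    (integrableOn_exp_mul_Ioi (by norm_num) 0).const_mul C
  have h2 : Integrable (indicator (Ioi 0) (fun t : ℝ => C * Real.exp (-1 * t))) :=
    h1.integrable_indicator measurableSet_Ioi
  have hint : Integrable (Function.uncurry F) (volume.prod (PP b h)) := by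
    refine (h2.comp_fst (PP b h)).mono' ?_ (ae_of_all _ fun p => ?_)
    · refine Measurable.aestronglyMeasurable ?_
      have m1 : Measurable (fun p : ℝ × (ι → Bool) => f (p.1 - XX h p.2)) :=
        hfc.measurable.comp (measurable_fst.sub (hm.comp measurable_snd))
      have m2 : Measurable (fun p : ℝ × (ι → Bool) => Real.exp (-p.1)) :=
        Real.measurable_exp.comp measurable_fst.neg
      exact m1.mul m2
    · obtain ⟨w, ω⟩ := p
      simp only [Function.uncurry, hF]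
      rw [Real.norm_eq_abs, abs_mul, abs_of_pos (Real.exp_pos _)]
      by_cases hw : 0 < w
      · rw [indicator_of_mem (show w ∈ Ioi 0 from hw), neg_one_mul]
        exact mul_le_mul_of_nonneg_right (hC _) (Real.exp_pos _).le
      · rw [indicator_of_notMem (show w ∉ Ioi 0 from hw),
          hf.zero _ (by linarith [XX_nonneg h h0 ω, not_lt.1 hw])]
        simp
  have hswap := integral_integral_swap hint
  have e1 : ck (Av b h f) = ∫ w : ℝ, ∫ ω, F w ω ∂(PP b h) := by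
    unfold ck Av
    refine integral_congr_ae (ae_of_all _ fun w => ?_)
    simp only [hF]
    rw [integral_mul_const]
  have e2 : ∀ ω, ∫ w : ℝ, F w ω = Real.exp (-(XX h ω)) * ck f := by
    intro ω
    have e3 : ∀ w : ℝ, F w ω = Real.exp (-(XX h ω)) *
        ((fun v : ℝ => f v * Real.exp (-v)) (w - XX h ω)) := by
      intro w
      simp only [hF]
      have : Real.exp (-w) = Real.exp (-(XX h ω)) * Real.exp (-(w - XX h ω)) := by
        rw [← Real.exp_add]
        congr 1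
        ring
      rw [this]
      ring
    simp_rw [e3]
    rw [integral_const_mul, integral_sub_right_eq_self (fun v : ℝ => f v * Real.exp (-v))]
    rfl
  rw [e1, hswap]
  simp_rw [e2]
  rw [integral_mul_const]

theorem exp_mass {ι : Type*} [Countable ι] (b h : ι → ℝ) (h0 : ∀ i, 0 ≤ h i) (hs : Summable h) :
    0 < ∫ ω, Real.exp (-(XX h ω)) ∂(PP b h) := by
  have hm := XX_meas h h0 hs
  refine integral_exp_pos ?_
  refine (integrable_const (1:ℝ)).mono' (Real.measurable_exp.comp hm.neg).aestronglyMeasurable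
    (ae_of_all _ fun ω => ?_)
  rw [Real.norm_eq_abs, abs_of_pos (Real.exp_pos _)]
  exact Real.exp_le_one_iff.2 (by linarith [XX_nonneg h h0 ω])

theorem ck_pos {L : ℝ} {g : ℝ → ℝ} (hg : ST L g) (hg0 : ∀ t, 0 ≤ g t) : 0 < ck g := by
  rw [← Kk_const hg (le_max_left L 0) (le_max_right L 0)]
  unfold Kk
  rw [hg.one _ (le_max_left L 0), one_mul]
  have h1 : 0 ≤ ∫ w in (0:ℝ)..(max L 0), g w * Real.exp (-w) :=
    intervalIntegral.integral_nonneg (le_max_right _ _) fun w _ =>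
      mul_nonneg (hg0 w) (Real.exp_pos _).le
  have := Real.exp_pos (-(max L 0))
  linarith

theorem qf_one (ρ : ℂ) (h0 : ρ ≠ 0) (h1 : ρ ≠ 1) : qf ρ 1 ≠ 0 := by
  have hn : 0 < ‖ρ‖ ^ 2 := by
    have := norm_pos_iff.2 h0
    positivity
  have hn1 : 0 < ‖ρ - 1‖ ^ 2 := by
    have := norm_pos_iff.2 (sub_ne_zero.2 h1)
    positivity
  have e : qf ρ 1 = ((‖ρ - 1‖ ^ 2 / ‖ρ‖ ^ 2 : ℝ) : ℂ) := by
    unfold qf
    have e1 : ‖ρ - 1‖ ^ 2 = ‖ρ‖ ^ 2 - 2 * ρ.re + 1 := by
      rw [Complex.sq_norm, Complex.sq_norm, Complex.normSq_apply, Complex.normSq_apply]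
      simp only [Complex.sub_re, Complex.sub_im, Complex.one_re, Complex.one_im]
      ring
    rw [e1, one_pow, mul_one, mul_one]
    have hn' : (‖ρ‖ ^ 2 : ℝ) ≠ 0 := hn.ne'
    rw [← Complex.ofReal_one, ← Complex.ofReal_sub, ← Complex.ofReal_add]
    congr 1
    field_simp
  rw [e]
  exact_mod_cast (div_pos hn1 hn).ne'

/-- signed steps at every scale -/
theorem good_signed' {Φ : ℂ → ℂ} (hΦ : LT Φ) (L θ : ℝ) (hL : 0 < L) (h1 : 1 / 2 < θ) (h2 : θ < 1) :
    ∃ g, ST L g ∧ ck g ≠ 0 ∧ ∀ a R, AF Φ a R → Sm θ g a := by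
  obtain ⟨hb1, hb2⟩ := sg_bounds θ h1 h2
  have hb3 : sg θ < 1 := by linarith
  have := hΦ.ZS_countable (sg θ) hb1 hb3
  obtain ⟨T, hTs⟩ := hΦ.hT_small (sg θ) hb1 hb3 (L / 2) (by linarith)
  obtain ⟨f, hf, hfs⟩ := D.PF_step (D.mu Φ) (LZ hΦ (sg θ) T) (Ph_ST (L / 2) (by linarith))
  have hK := KL_kill hΦ (sg θ) T hb1 hb3
  have hGK : ∀ s : ℂ, 0 < s.re → GF f s * KK (bx Φ (sg θ)) (D.hT Φ (sg θ) T) s =
      GG (L / 2) s * D.KL hΦ (sg θ) T s := by
    intro s _
    unfold GF GG D.KL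
    rw [hfs s]
    ring
  refine ⟨Av (bx Φ (sg θ)) (D.hT Φ (sg θ) T) f, ?_, ?_, fun a R ha => ?_⟩
  · exact (Av_ST _ _ (D.hT_nonneg _ T) (hΦ.hT_summable _ T hb1 hb3) hf).mono (by linarith)
  · rw [ck_Av _ _ (D.hT_nonneg _ T) (hΦ.hT_summable _ T hb1 hb3) hf]
    refine mul_ne_zero (exp_mass _ _ (D.hT_nonneg _ T) (hΦ.hT_summable _ T hb1 hb3)).ne' ?_
    intro h0
    have h5 := ck_DD hf
    rw [h0, hfs 1, ← ck_DD (Ph_ST (L / 2) (by linarith))] at h5
    have h6 : 0 < ck (Ph (L / 2)) := ck_pos (Ph_ST (L / 2) (by linarith)) (Ph_nonneg _)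
    have h7 : PF (D.mu Φ) (LZ hΦ (sg θ) T) 1 ≠ 0 := by
      unfold H353.D.PF
      refine Finset.prod_ne_zero_iff.2 fun ρ hρ => pow_ne_zero _ (qf_one ρ ?_ ?_)
      · rintro rfl
        rw [D.mem_LZ] at hρ
        have := hρ.2.1.1
        simp at this
        linarith
      · rintro rfl
        rw [D.mem_LZ] at hρ
        exact hΦ.ne 1 (by simp) hρ.1
    have h8 : (ck (Ph (L / 2)) : ℂ) ≠ 0 := by exact_mod_cast h6.ne'
    rw [Complex.ofReal_zero] at h5
    exact mul_ne_zero h7 h8 h5.symm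
  · exact D.core _ _ (D.hT_nonneg _ T) (hΦ.hT_summable _ T hb1 hb3) hΦ ha hb1 hb2 h2 (by linarith) hf hK hGK

end

end Pool.Agent.H6.KX
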