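import Pool.Agent.H6.KX.Inst
import Pool.Agent.H6.KW.Local

/-!
# Small values of the partial sums of `a n / n` in every window
-/

set_option autoImplicit false

open Complex MeasureTheory Filter Topology Set
open H353 H353.D
open Pool.Agent.H6.KW (one_side divt log_add_one_le)

namespace Pool.Agent.H6.KX

noncomputable section

variable {L : ℝ} {g : ℝ → ℝ}

theorem Kk_mono (hg : ST L g) (hm : Monotone g) : Monotone (Kk g) := by
  refine monotone_of_deriv_nonneg (fun v => (Kk_deriv hg v).differentiableAt) fun v => ?_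
  rw [(Kk_deriv hg v).deriv]
  exact mul_nonneg hm.deriv_nonneg (Real.exp_pos _).le

theorem g_nonneg (hg : ST L g) (hm : Monotone g) (t : ℝ) : 0 ≤ g t := by
  have := hm (min_le_left t 0)
  rwa [hg.zero _ (min_le_right t 0)] at this

/-- the cutoff -/
def Wk (g : ℝ → ℝ) (y : ℝ) : ℝ := if 0 < y then Kk g (Real.log y) / ck g else 0

theorem Wk_zero (hg : ST L g) (y : ℝ) (hy : y ≤ 1) : Wk g y = 0 := by
  unfold Wk
  split_ifs with h
  · rw [Kk_zero hg (Real.log_nonpos h.le hy), zero_div]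
  · rfl

theorem Wk_one (hg : ST L g) (hL : 0 < L) (hck : ck g ≠ 0) (y : ℝ) (hy : Real.exp L ≤ y) :
    Wk g y = 1 := by
  have hy0 : 0 < y := lt_of_lt_of_le (Real.exp_pos L) hy
  have h1 : L ≤ Real.log y := by
    rw [Real.le_log_iff_exp_le hy0]
    exact hy
  unfold Wk
  rw [if_pos hy0, Kk_const hg h1 (by linarith), div_self hck]

theorem Wk_mono (hg : ST L g) (hm : Monotone g) (hck : 0 < ck g) : Monotone (Wk g) := by
  have hK := Kk_mono hg hm
  have hnn : ∀ v, 0 ≤ Kk g v := fun v => by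
    have := hK (min_le_left v 0)
    rwa [Kk_zero hg (min_le_right v 0)] at this
  intro y z hyz
  unfold Wk
  by_cases hy : 0 < y
  · rw [if_pos hy, if_pos (by linarith)]
    exact div_le_div_of_nonneg_right (hK (Real.log_le_log hy hyz)) hck.le
  · rw [if_neg hy]
    split_ifs
    · exact div_nonneg (hnn _) hck.le
    · exact le_rfl

theorem window_main {Φ R : ℂ → ℂ} {a : ℕ → ℝ} (hΦ : LT Φ) (ha : AF Φ a R) (hg : ST L g)
    (hm : Monotone g) (hL : 0 < L) {θ C : ℝ} (h1 : 1 / 2 < θ) (h3 : θ < 1)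
    (hb : ∀ t, |SG a g t| ≤ C * Real.exp (θ * t)) (D1 : ℝ) (hD : Φ 1 * (D1 : ℂ) = R 1)
    (hab : ∀ n : ℕ, 1 ≤ n → |a n| ≤ Real.log n + 1) :
    ∃ B C' : ℝ, 1 < B ∧ ∀ x : ℝ, 1 ≤ x → ∃ y : ℝ, x ≤ y ∧ y ≤ B * x ∧
      ∀ z : ℝ, y ≤ z → z ≤ y + √y →
        |∑ n ∈ Finset.Icc 1 ⌊z⌋₊, a n / n - D1| ≤ C' * z ^ (θ - 1) := by
  obtain ⟨C1, hC1, hG⟩ := G_bound hΦ ha hg h3 hb D1 hD
  have hck : 0 < ck g := ck_pos hg (g_nonneg hg hm)
  set A : ℝ := Real.exp L with hA
  have hA1 : 1 < A := Real.one_lt_exp_iff.2 hL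
  have hA0 : 0 < A := by linarith
  set δ : ℝ := θ - 1 / 2 with hδ
  have hδ0 : 0 < δ := by rw [hδ]; linarith
  set D : ℝ := 1 / δ + 1 with hD'
  have hD0 : 0 < D := by positivity
  refine ⟨2 * A, 2 * (C1 / ck g) + 2 * (D * A) + 2 * D, by linarith, fun x hx => ?_⟩
  set X : ℝ := A * (x + 1) with hX
  have hX2 : 2 * A ≤ X := by rw [hX]; nlinarith
  have hXA : A ≤ X := by linarith
  have hX1 : 1 < X := by linarith
  have hX0 : 0 < X := by linarith
  have hXB : X ≤ 2 * A * x := by rw [hX]; nlinarith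
  have hXx : X / A - 1 = x := by rw [hX]; field_simp; ring
  set b : ℕ → ℝ := fun n => a n / n - if n = 1 then D1 else 0 with hbdef
  have hbsum : ∀ (N : ℕ) (w : ℕ → ℝ), 1 ≤ N → ∑ n ∈ Finset.Icc 1 N, b n * w n =
      ∑ n ∈ Finset.Icc 1 N, a n / n * w n - D1 * w 1 := by
    intro N w hN
    simp only [hbdef, sub_mul, Finset.sum_sub_distrib]
    congr 1
    rw [Finset.sum_eq_single 1]
    · simp
    · intro n _ hn
      rw [if_neg hn, zero_mul]
    · intro h
      exact absurd (Finset.mem_Icc.2 ⟨le_rfl, hN⟩) h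
  have hfl1 : 1 ≤ ⌊X⌋₊ := (Nat.one_le_floor_iff X).2 hX1.le
  -- the smoothed sum
  have hsm : |∑ n ∈ Finset.Icc 1 ⌊X⌋₊, b n * Wk g (X / n)| ≤ C1 / ck g * X ^ (θ - 1) := by
    rw [hbsum _ (fun n => Wk g (X / n)) hfl1]
    have e1 : Wk g (X / ((1 : ℕ) : ℝ)) = 1 := Wk_one hg hL hck.ne' _ (by simpa using hXA)
    rw [e1, mul_one]
    have hT0 : 0 ≤ Real.log X := Real.log_nonneg hX1.le
    have h5 := hG (Real.log X) hT0
    rw [Real.exp_log hX0] at h5
    have e2 : ∑ n ∈ Finset.Icc 1 ⌊X⌋₊, a n / n * Wk g (X / n) =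
        (∑ n ∈ Finset.Icc 1 ⌊X⌋₊, a n / n * Kk g (Real.log X - Real.log n)) / ck g := by
      rw [Finset.sum_div]
      refine Finset.sum_congr rfl fun n hn => ?_
      rw [Finset.mem_Icc] at hn
      have hn0 : (0:ℝ) < n := by exact_mod_cast hn.1
      unfold Wk
      rw [if_pos (by positivity), Real.log_div hX0.ne' hn0.ne']
      ring
    rw [e2]
    have e3 : (∑ n ∈ Finset.Icc 1 ⌊X⌋₊, a n / n * Kk g (Real.log X - Real.log n)) / ck g - D1 =
        (∑ n ∈ Finset.Icc 1 ⌊X⌋₊, a n / n * Kk g (Real.log X - Real.log n) - D1 * ck g) / ck g := by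
      field_simp
    rw [e3, abs_div, abs_of_pos hck, div_le_iff₀ hck]
    have e4 : Real.exp ((θ - 1) * Real.log X) = X ^ (θ - 1) := by
      rw [Real.rpow_def_of_pos hX0, mul_comm]
    rw [e4] at h5
    refine h5.trans (le_of_eq ?_)
    field_simp
  set T0 : ℝ := C1 / ck g * X ^ (θ - 1) with hT0
  have hT00 : 0 ≤ T0 := (abs_nonneg _).trans hsm
  rw [abs_le] at hsm
  obtain ⟨m1, p1, q1, _, r1⟩ := one_side hA1 (Wk_zero hg) (Wk_one hg hL hck.ne') (Wk_mono hg hm hck)
    b T0 X hXA hsm.2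
  obtain ⟨m2, p2, q2, _, r2⟩ := one_side hA1 (Wk_zero hg) (Wk_one hg hL hck.ne') (Wk_mono hg hm hck)
    (fun n => -b n) T0 X hXA (by
      simp only [neg_mul, Finset.sum_neg_distrib]
      linarith [hsm.1])
  rw [Finset.sum_neg_distrib] at r2
  have hceil : ∀ m : ℕ, X / A - 1 ≤ m ↔ ⌈X / A - 1⌉₊ ≤ m := fun m => (Nat.ceil_le).symm
  have hfl : ∀ m : ℕ, (m : ℝ) ≤ X ↔ m ≤ ⌊X⌋₊ := fun m => (Nat.le_floor_iff hX0.le).symm
  set J : ℝ := (Real.log X + 1) * A / X with hJ
  have hlogX : 0 ≤ Real.log X := Real.log_nonneg hX1.le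
  have hJ0 : 0 ≤ J := by positivity
  obtain ⟨m, hml, hmr, hmm⟩ := divt (fun m => ∑ n ∈ Finset.Icc 1 m, b n) ⌈X / A - 1⌉₊ ⌊X⌋₊ T0 J hT00 hJ0
    (fun n hn1 hn2 => by
      have e : ∑ k ∈ Finset.Icc 1 (n + 1), b k - ∑ k ∈ Finset.Icc 1 n, b k = b (n + 1) := by
        rw [Finset.sum_Icc_succ_top (by omega)]
        ring
      rw [e]
      have g1 : x ≤ (n : ℝ) := by
        have := (hceil n).2 hn1
        rwa [hXx] at this
      have g2 : ((n + 1 : ℕ) : ℝ) ≤ X := (hfl _).2 (by omega)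
      have g3 : n + 1 ≠ 1 := by
        have : (1:ℝ) ≤ n := by linarith
        have : 1 ≤ n := by exact_mod_cast this
        omega
      have g4 : X / A ≤ ((n + 1 : ℕ) : ℝ) := by
        have : X / A = x + 1 := by linarith
        rw [this]
        push_cast
        linarith
      simp only [hbdef]
      rw [if_neg g3, sub_zero, abs_div, Nat.abs_cast]
      have g5 : (0:ℝ) < ((n + 1 : ℕ) : ℝ) := by positivity
      have g6 : |a (n + 1)| ≤ Real.log X + 1 := by
        refine (hab (n + 1) (by omega)).trans ?_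
        have := Real.log_le_log g5 g2
        linarith
      rw [div_le_iff₀ g5, hJ]
      rw [div_le_iff₀ hA0] at g4
      calc |a (n + 1)| ≤ (Real.log X + 1) * 1 := by linarith
        _ ≤ (Real.log X + 1) * (((n + 1 : ℕ) : ℝ) * A / X) := by
            refine mul_le_mul_of_nonneg_left ?_ (by linarith)
            rw [le_div_iff₀ hX0]
            linarith
        _ = _ := by ring)
    ⟨m1, (hceil _).1 p1, (hfl _).1 q1, r1⟩ ⟨m2, (hceil _).1 p2, (hfl _).1 q2, by linarith⟩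
  have hmx : x ≤ (m : ℝ) := by
    have := (hceil m).2 hml
    rwa [hXx] at this
  have hmX : (m : ℝ) ≤ X := (hfl m).2 hmr
  have hm1 : 1 ≤ m := by
    have : (1:ℝ) ≤ m := by linarith
    exact_mod_cast this
  have hm1' : (1:ℝ) ≤ m := by exact_mod_cast hm1
  refine ⟨m, hmx, hmX.trans hXB, fun z hz1 hz2 => ?_⟩
  have hz : 1 ≤ z := by linarith
  have hz0 : 0 < z := by linarith
  have hsq : √(m : ℝ) ≤ m := by
    rw [Real.sqrt_le_left (by linarith)]
    nlinarith
  have hz3 : z ≤ 2 * m := by linarith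
  have hmz : m ≤ ⌊z⌋₊ := Nat.le_floor hz1
  have hsq1 : 1 ≤ √(m : ℝ) := by rwa [Real.one_le_sqrt]
  -- the value at `m`
  have hval : |∑ n ∈ Finset.Icc 1 m, a n / n - D1| ≤ T0 + J := by
    have e := hbsum m (fun _ => 1) hm1
    simp only [mul_one] at e
    rw [← e]
    exact hmm
  -- the short interval
  have hshort : |∑ n ∈ Finset.Ioc m ⌊z⌋₊, a n / n| ≤ 2 * D * z ^ (θ - 1) := by
    have e1 : ∀ n ∈ Finset.Ioc m ⌊z⌋₊, |a n / n| ≤ (Real.log z + 1) / m := by
      intro n hn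
      rw [Finset.mem_Ioc] at hn
      have hn1 : 1 ≤ n := by omega
      have hn0 : (0:ℝ) < n := by exact_mod_cast hn1
      have hnz : (n : ℝ) ≤ z := (Nat.le_floor_iff hz0.le).1 hn.2
      have hmn : (m : ℝ) ≤ n := by exact_mod_cast hn.1.le
      rw [abs_div, Nat.abs_cast]
      have g6 : |a n| ≤ Real.log z + 1 := by
        refine (hab n hn1).trans ?_
        have := Real.log_le_log hn0 hnz
        linarith
      exact div_le_div₀ (by linarith [Real.log_nonneg hz]) g6 (by linarith) hmn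
    refine (Finset.abs_sum_le_sum_abs _ _).trans ((Finset.sum_le_card_nsmul _ _ _ e1).trans ?_)
    rw [nsmul_eq_mul, Nat.card_Ioc]
    have hcard : ((⌊z⌋₊ - m : ℕ) : ℝ) ≤ √(m : ℝ) := by
      rw [Nat.cast_sub hmz]
      have := Nat.floor_le hz0.le
      linarith
    have hlog := log_add_one_le δ hδ0 z hz
    have hlz : 0 ≤ Real.log z := Real.log_nonneg hz
    have hsm0 : 0 < √(m : ℝ) := by linarith
    have hm00 : (0:ℝ) < m := by linarith
    calc ((⌊z⌋₊ - m : ℕ) : ℝ) * ((Real.log z + 1) / m) ≤ √(m : ℝ) * ((D * z ^ δ) / m) := by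
          refine mul_le_mul hcard (div_le_div_of_nonneg_right hlog hm00.le) (by positivity) hsm0.le
      _ = D * z ^ δ * (√(m : ℝ))⁻¹ := by
          have e3 : √(m : ℝ) * √(m : ℝ) = m := Real.mul_self_sqrt hm00.le
          field_simp
          rw [sq, e3]
      _ ≤ D * z ^ δ * (2 * z ^ (-(1 / 2) : ℝ)) := by
          refine mul_le_mul_of_nonneg_left ?_ (by positivity)
          rw [Real.rpow_neg hz0.le, ← Real.sqrt_eq_rpow, inv_le_comm₀ hsm0 (by positivity), mul_inv,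
            inv_inv]
          rw [show (2:ℝ)⁻¹ * √z = √z / 2 by ring, div_le_iff₀ (by norm_num)]
          refine Real.sqrt_le_iff.2 ⟨by positivity, ?_⟩
          rw [mul_pow, Real.sq_sqrt hm00.le]
          linarith
      _ = 2 * D * z ^ (θ - 1) := by
          have e3 : z ^ δ * z ^ (-(1 / 2) : ℝ) = z ^ (θ - 1) := by
            rw [← Real.rpow_add hz0]
            congr 1
            rw [hδ]
            ring
          rw [← e3]
          ring
  -- powers of `X`
  have hXz : z / 2 ≤ X := by linarith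
  have hpX : X ^ (θ - 1) ≤ 2 * z ^ (θ - 1) := by
    have e1 : X ^ (θ - 1) ≤ (z / 2) ^ (θ - 1) :=
      Real.rpow_le_rpow_of_nonpos (by positivity) hXz (by linarith)
    refine e1.trans ?_
    rw [Real.div_rpow hz0.le (by norm_num), div_eq_mul_inv, ← Real.rpow_neg (by norm_num), mul_comm]
    refine mul_le_mul_of_nonneg_right ?_ (by positivity)
    calc (2:ℝ) ^ (-(θ - 1)) ≤ 2 ^ (1:ℝ) :=
          Real.rpow_le_rpow_of_exponent_le (by norm_num) (by linarith)
      _ = 2 := Real.rpow_one 2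
  have hJle : J ≤ D * A * X ^ (θ - 1) := by
    have hlog := log_add_one_le δ hδ0 X hX1.le
    have e1 : X ^ δ / X ≤ X ^ (θ - 1) := by
      rw [← Real.rpow_sub_one hX0.ne']
      refine Real.rpow_le_rpow_of_exponent_le hX1.le ?_
      rw [hδ]
      linarith
    calc J = (Real.log X + 1) * (A / X) := by rw [hJ]; ring
      _ ≤ (D * X ^ δ) * (A / X) := mul_le_mul_of_nonneg_right hlog (by positivity)
      _ = D * A * (X ^ δ / X) := by ring
      _ ≤ D * A * X ^ (θ - 1) := mul_le_mul_of_nonneg_left e1 (by positivity)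
  rw [split_sum _ hmz]
  have e5 : ∑ n ∈ Finset.Icc 1 m, a n / n + ∑ n ∈ Finset.Ioc m ⌊z⌋₊, a n / n - D1 =
      (∑ n ∈ Finset.Icc 1 m, a n / n - D1) + ∑ n ∈ Finset.Ioc m ⌊z⌋₊, a n / n := by ring
  rw [e5]
  refine (abs_add_le _ _).trans ?_
  have h8 : T0 ≤ 2 * (C1 / ck g) * z ^ (θ - 1) := by
    rw [hT0]
    have : 0 ≤ C1 / ck g := by positivity
    refine (mul_le_mul_of_nonneg_left hpX this).trans (le_of_eq ?_)
    ring
  have h9 : D * A * X ^ (θ - 1) ≤ 2 * (D * A) * z ^ (θ - 1) := by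
    have : 0 ≤ D * A := by positivity
    refine (mul_le_mul_of_nonneg_left hpX this).trans (le_of_eq ?_)
    ring
  have h10 : (2 * (C1 / ck g) + 2 * (D * A) + 2 * D) * z ^ (θ - 1) =
      2 * (C1 / ck g) * z ^ (θ - 1) + 2 * (D * A) * z ^ (θ - 1) + 2 * D * z ^ (θ - 1) := by ring
  rw [h10]
  linarith

end

end Pool.Agent.H6.KX
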